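import Pool.Agent.Q135.PiM.Fail
import Pool.Agent.TH842.A3.Uni

/-!
# Failures of the relations `a_k = a_(k+P)` between the digits of an algebraic irrational number
-/

set_option autoImplicit false

namespace Pool.Agent.Q135.PiM

open Finset Filter Pool.Agent.W979.HS

/-- the integer part and the digits -/
noncomputable def dig (b : ℕ) (x : ℝ) (k : ℕ) : ℤ := if k = 0 then ⌊x⌋ else digit b x k

theorem dig_sum (b : ℕ) (hb : 2 ≤ b) (x : ℝ) (n : ℕ) :
    ∑ k ∈ range (n + 1), (dig b x k : ℝ) / (b : ℝ) ^ k = ⌊(b : ℝ) ^ n * x⌋ / (b : ℝ) ^ n := by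
  have hbR : (0 : ℝ) < b := by exact_mod_cast (by omega : 0 < b)
  induction n with
  | zero => simp [dig]
  | succ n ih =>
    rw [sum_range_succ, ih, floor_succ b hb x n]
    have h1 : dig b x (n + 1) = digit b x (n + 1) := by simp [dig]
    rw [h1]
    push_cast
    rw [pow_succ]
    field_simp

theorem dig_bound (b : ℕ) (hb : 2 ≤ b) (x : ℝ) (k : ℕ) : |dig b x k| ≤ max (b : ℤ) |⌊x⌋| := by
  unfold dig
  split_ifs with h
  · exact le_max_right _ _
  · have hb0 : (0 : ℤ) < b := by exact_mod_cast (by omega : 0 < b)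
    have h1 := Int.emod_nonneg ⌊(b : ℝ) ^ k * x⌋ hb0.ne'
    have h2 := Int.emod_lt_of_pos ⌊(b : ℝ) ^ k * x⌋ hb0
    refine le_trans ?_ (le_max_left _ _)
    unfold digit
    rw [abs_of_nonneg h1]
    exact h2.le

theorem dig_hasSum (b : ℕ) (hb : 2 ≤ b) (x : ℝ) :
    HasSum (fun k : ℕ => (dig b x k : ℝ) / (b : ℝ) ^ k) x := by
  have hb2 : (2 : ℝ) ≤ b := by exact_mod_cast hb
  have hbR : (0 : ℝ) < b := by linarith
  have hsum : Summable (fun k : ℕ => (dig b x k : ℝ) / (b : ℝ) ^ k) := by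
    refine Summable.of_norm_bounded (g := fun k : ℕ => ((max (b : ℤ) |⌊x⌋| : ℤ) : ℝ) * (1 / b : ℝ) ^ k)
      ((summable_geometric_of_lt_one (by positivity) (by
        rw [div_lt_one hbR]; linarith)).mul_left _) (fun k => ?_)
    rw [norm_div, norm_pow, Real.norm_of_nonneg hbR.le, one_div, inv_pow, ← div_eq_mul_inv]
    apply div_le_div_of_nonneg_right _ (by positivity)
    rw [Real.norm_eq_abs]
    exact_mod_cast dig_bound b hb x k
  have h1 : Tendsto (fun n : ℕ => ∑ k ∈ range (n + 1), (dig b x k : ℝ) / (b : ℝ) ^ k) atTop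
      (nhds (∑' k, (dig b x k : ℝ) / (b : ℝ) ^ k)) :=
    (hsum.hasSum.tendsto_sum_nat).comp (tendsto_add_atTop_nat 1)
  have h2 : Tendsto (fun n : ℕ => ∑ k ∈ range (n + 1), (dig b x k : ℝ) / (b : ℝ) ^ k) atTop
      (nhds x) := by
    have h3 : ∀ n : ℕ, |∑ k ∈ range (n + 1), (dig b x k : ℝ) / (b : ℝ) ^ k - x| ≤ (1 / b : ℝ) ^ n := by
      intro n
      rw [dig_sum b hb x n]
      have h4 := Int.floor_le ((b : ℝ) ^ n * x)
      have h5 := Int.lt_floor_add_one ((b : ℝ) ^ n * x)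
      have hbn : (0 : ℝ) < (b : ℝ) ^ n := by positivity
      have h6 : (⌊(b : ℝ) ^ n * x⌋ : ℝ) / (b : ℝ) ^ n - x =
          (⌊(b : ℝ) ^ n * x⌋ - (b : ℝ) ^ n * x) / (b : ℝ) ^ n := by field_simp
      rw [h6, abs_div, abs_of_pos hbn, div_pow, one_pow]
      apply div_le_div_of_nonneg_right _ hbn.le
      rw [abs_le]
      constructor <;> linarith
    rw [tendsto_iff_norm_sub_tendsto_zero]
    refine squeeze_zero (fun n => norm_nonneg _) (fun n => ?_)
      (tendsto_pow_atTop_nhds_zero_of_lt_one (r := (1 / b : ℝ)) (by positivity) (by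
        rw [div_lt_one hbR]; linarith))
    rw [Real.norm_eq_abs]
    exact h3 n
  have h4 := tendsto_nhds_unique h1 h2
  have h5 := hsum.hasSum
  rw [h4] at h5
  exact h5

/-- the rate for algebraic irrational numbers -/
noncomputable def rate (N : ℕ) : ℝ := (Real.log N) ^ 3 / (Real.log (Real.log N)) ^ 5

theorem failures_alg (b : ℕ) (hb : 2 ≤ b) (x : ℝ) (halg : IsAlgebraic ℚ x) (hirr : Irrational x)
    (P : ℕ) (_hP : 1 ≤ P) :
    ∃ c : ℝ, 0 < c ∧ ∃ N0 : ℕ, ∀ N : ℕ, N0 ≤ N →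
      c * rate N ≤ (((Icc 1 N).filter (fun k : ℕ =>
        ∑ j ∈ range (P + 1), (if j = 0 then (1 : ℤ) else if j = P then -1 else 0) *
          digit b x (k + j) ≠ 0)).card : ℝ) := by
  obtain ⟨c, hc, N0, h⟩ := Pool.Agent.TH842.A3.Uni.relations_one x halg hirr b hb (dig b x)
    (max (b : ℤ) |⌊x⌋|) (dig_bound b hb x) (dig_hasSum b hb x) P
    (fun j => if j = 0 then (1 : ℤ) else if j = P then -1 else 0)
    ⟨0, Nat.zero_le _, by simp⟩ 0
  refine ⟨c, hc, N0, fun N hN => ?_⟩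
  have h1 := h N hN
  unfold rate
  rw [← mul_div_assoc]
  refine h1.trans (le_of_eq ?_)
  congr 2
  apply filter_congr
  intro k hk
  rw [mem_Icc] at hk
  have h2 : ∀ j : ℕ, dig b x (k + j) = digit b x (k + j) := by
    intro j
    have : k + j ≠ 0 := by omega
    unfold dig
    rw [if_neg this]
  simp only [h2]

end Pool.Agent.Q135.PiM
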