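import Pool.Agent.W979.HS.Count

/-!
# Failures of the relations `a_k = a_(k+P)` between the digits of a number of finite irrationality
exponent
-/

set_option autoImplicit false

namespace Pool.Agent.Q135.PiM

open Finset Filter Pool.Agent.W979.HS

/-- the integer parts -/
theorem floor_succ (b : ℕ) (hb : 2 ≤ b) (x : ℝ) (k : ℕ) :
    ⌊(b : ℝ) ^ (k + 1) * x⌋ = b * ⌊(b : ℝ) ^ k * x⌋ + digit b x (k + 1) := by
  unfold digit
  have hb0 : (0 : ℤ) < b := by exact_mod_cast (by omega : 0 < b)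
  have hbR : (0 : ℝ) < b := by exact_mod_cast (by omega : 0 < b)
  have h1 : ⌊(b : ℝ) ^ (k + 1) * x⌋ / (b : ℤ) = ⌊(b : ℝ) ^ k * x⌋ := by
    have h2 := Int.floor_div_natCast ((b : ℝ) ^ (k + 1) * x) b
    rw [← h2]
    congr 1
    rw [pow_succ]
    field_simp
  have h3 := Int.mul_ediv_add_emod ⌊(b : ℝ) ^ (k + 1) * x⌋ (b : ℤ)
  rw [h1] at h3
  linarith

/-- no failure between `m` and `n` -/
theorem floor_diff (b : ℕ) (hb : 2 ≤ b) (x : ℝ) (P m j : ℕ)
    (h : ∀ k, m < k → k ≤ m + j → digit b x k = digit b x (k + P)) :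
    ⌊(b : ℝ) ^ (m + j + P) * x⌋ - ⌊(b : ℝ) ^ (m + j) * x⌋ =
      (b : ℤ) ^ j * (⌊(b : ℝ) ^ (m + P) * x⌋ - ⌊(b : ℝ) ^ m * x⌋) := by
  induction j with
  | zero => simp
  | succ j ih =>
    have ih' := ih (fun k h1 h2 => h k h1 (by omega))
    have e1 : m + (j + 1) + P = (m + j + P) + 1 := by ring
    have e2 : m + (j + 1) = (m + j) + 1 := by ring
    rw [e1, e2, floor_succ b hb x (m + j + P), floor_succ b hb x (m + j)]
    have h1 := h (m + j + 1) (by omega) (by omega)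
    have e3 : m + j + 1 + P = m + j + P + 1 := by ring
    rw [e3] at h1
    rw [h1, pow_succ, mul_comm ((b : ℤ) ^ j) (b : ℤ), mul_assoc, ← ih']
    ring

theorem close (b : ℕ) (hb : 2 ≤ b) (x : ℝ) (P m j : ℕ)
    (h : ∀ k, m < k → k ≤ m + j → digit b x k = digit b x (k + P)) :
    ∃ p : ℤ, (b : ℝ) ^ j * |(((b ^ m * (b ^ P - 1) : ℕ) : ℝ)) * x - p| ≤ 1 := by
  refine ⟨⌊(b : ℝ) ^ (m + P) * x⌋ - ⌊(b : ℝ) ^ m * x⌋, ?_⟩
  have h1 := floor_diff b hb x P m j h
  have hbR : (0 : ℝ) < b := by exact_mod_cast (by omega : 0 < b)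
  have hP : 1 ≤ b ^ P := Nat.one_le_pow _ _ (by omega)
  have hc : (((b ^ m * (b ^ P - 1) : ℕ) : ℝ)) = (b : ℝ) ^ (m + P) - (b : ℝ) ^ m := by
    rw [Nat.cast_mul, Nat.cast_sub hP]
    push_cast
    rw [pow_add]
    ring
  have h2 : (b : ℝ) ^ j * |(((b ^ m * (b ^ P - 1) : ℕ) : ℝ)) * x -
      ((⌊(b : ℝ) ^ (m + P) * x⌋ - ⌊(b : ℝ) ^ m * x⌋ : ℤ) : ℝ)| =
      |((b : ℝ) ^ (m + j + P) * x - (b : ℝ) ^ (m + j) * x) -
        ((⌊(b : ℝ) ^ (m + j + P) * x⌋ - ⌊(b : ℝ) ^ (m + j) * x⌋ : ℤ) : ℝ)| := by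
    rw [h1, hc]
    rw [← abs_of_pos (pow_pos hbR j), ← abs_mul]
    congr 1
    push_cast
    rw [show m + j + P = m + P + j by ring, pow_add _ (m + P) j, pow_add _ m j]
    ring
  rw [h2]
  have h3 := Int.floor_le ((b : ℝ) ^ (m + j + P) * x)
  have h4 := Int.lt_floor_add_one ((b : ℝ) ^ (m + j + P) * x)
  have h5 := Int.floor_le ((b : ℝ) ^ (m + j) * x)
  have h6 := Int.lt_floor_add_one ((b : ℝ) ^ (m + j) * x)
  push_cast
  rw [abs_le]
  constructor <;> linarith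

/-- `x` has finite irrationality exponent -/
def FiniteExponent (x : ℝ) : Prop :=
  ∃ (κ c : ℝ), 0 < c ∧ ∀ q : ℕ, 1 ≤ q → ∀ p : ℤ, c ≤ (q : ℝ) ^ κ * |q * x - p|

theorem gap (b : ℕ) (hb : 2 ≤ b) (x : ℝ) (hx : FiniteExponent x) (P : ℕ) (hP : 1 ≤ P) :
    ∃ K B : ℕ, 2 ≤ K ∧ 1 ≤ B ∧ ∀ m : ℕ, ∃ k, m < k ∧ k ≤ K * m + B ∧
      digit b x k ≠ digit b x (k + P) := by
  obtain ⟨κ, c, hc, hx⟩ := hx
  obtain ⟨K0, hK0⟩ := exists_nat_ge κ
  have hbR : (2 : ℝ) ≤ b := by exact_mod_cast hb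
  have hb1 : (1 : ℝ) ≤ b := by linarith
  obtain ⟨A, hA⟩ := pow_unbounded_of_one_lt (1 / c) (by linarith : (1 : ℝ) < b)
  refine ⟨K0 + 2, K0 * P + A + 1, by omega, by omega, fun m => ?_⟩
  by_contra hcon
  push Not at hcon
  set j := (K0 + 1) * m + K0 * P + A + 1 with hj
  obtain ⟨p, hp⟩ := close b hb x P m j (fun k h1 h2 => hcon k h1 (by
    rw [hj] at h2
    nlinarith))
  set q : ℕ := b ^ m * (b ^ P - 1) with hq
  have hP2 : 2 ≤ b ^ P := by
    calc 2 ≤ b := hb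
      _ ≤ b ^ P := Nat.le_self_pow (by omega) b
  have hq1 : 1 ≤ q := by
    rw [hq]
    exact Nat.mul_pos (by positivity) (by omega)
  have hq2 : q ≤ b ^ (m + P) := by
    rw [hq, pow_add]
    exact Nat.mul_le_mul_left _ (Nat.sub_le _ _)
  have h1 := hx q hq1 p
  have hqR : (1 : ℝ) ≤ q := by exact_mod_cast hq1
  have h2 : (q : ℝ) ^ κ ≤ (b : ℝ) ^ (K0 * (m + P)) := by
    calc (q : ℝ) ^ κ ≤ (q : ℝ) ^ (K0 : ℝ) := Real.rpow_le_rpow_of_exponent_le hqR hK0
      _ = (q : ℝ) ^ K0 := Real.rpow_natCast _ _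
      _ ≤ ((b : ℝ) ^ (m + P)) ^ K0 := by
          apply pow_le_pow_left₀ (by positivity)
          exact_mod_cast hq2
      _ = (b : ℝ) ^ (K0 * (m + P)) := by rw [← pow_mul, mul_comm]
  have habs : (0 : ℝ) ≤ |(q : ℝ) * x - p| := abs_nonneg _
  have h3 : c ≤ (b : ℝ) ^ (K0 * (m + P)) * |(q : ℝ) * x - p| :=
    h1.trans (mul_le_mul_of_nonneg_right h2 habs)
  have h4 : (1 : ℝ) < (b : ℝ) ^ A * c := by
    rw [div_lt_iff₀ hc] at hA
    exact hA
  have h5 : (b : ℝ) ^ A * ((b : ℝ) ^ (K0 * (m + P)) * |(q : ℝ) * x - p|) ≤ 1 := by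
    have h6 : (b : ℝ) ^ (A + K0 * (m + P)) ≤ (b : ℝ) ^ j := by
      apply pow_le_pow_right₀ hb1
      rw [hj]
      nlinarith
    calc (b : ℝ) ^ A * ((b : ℝ) ^ (K0 * (m + P)) * |(q : ℝ) * x - p|)
        = (b : ℝ) ^ (A + K0 * (m + P)) * |(q : ℝ) * x - p| := by rw [pow_add]; ring
      _ ≤ (b : ℝ) ^ j * |(q : ℝ) * x - p| := mul_le_mul_of_nonneg_right h6 habs
      _ ≤ 1 := hp
  have h7 : (b : ℝ) ^ A * c ≤ 1 :=
    (mul_le_mul_of_nonneg_left h3 (by positivity)).trans h5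
  linarith

/-- the points of a sequence that grows geometrically -/
theorem count (D : ℕ → Prop) [DecidablePred D] (K B : ℕ) (hK : 2 ≤ K)
    (h : ∀ m : ℕ, ∃ k, m < k ∧ k ≤ K * m + B ∧ D k) (r : ℕ) :
    ∃ t : ℕ, t + B ≤ B * K ^ r ∧ r ≤ ((Icc 1 t).filter D).card := by
  induction r with
  | zero => exact ⟨0, by simp, by simp⟩
  | succ r ih =>
    obtain ⟨t, ht, hc⟩ := ih
    obtain ⟨k, h1, h2, h3⟩ := h t
    refine ⟨K * t + B, ?_, ?_⟩
    · calc K * t + B + B ≤ K * t + K * B := by nlinarith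
        _ = K * (t + B) := by ring
        _ ≤ K * (B * K ^ r) := Nat.mul_le_mul_left _ ht
        _ = B * K ^ (r + 1) := by ring
    · have hsub : insert k ((Icc 1 t).filter D) ⊆ (Icc 1 (K * t + B)).filter D := by
        intro a ha
        rw [mem_insert] at ha
        rw [mem_filter, mem_Icc]
        rcases ha with rfl | ha
        · exact ⟨⟨by omega, h2⟩, h3⟩
        · rw [mem_filter, mem_Icc] at ha
          exact ⟨⟨ha.1.1, by nlinarith [ha.1.2]⟩, ha.2⟩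
      have hnot : k ∉ (Icc 1 t).filter D := by
        rw [mem_filter, mem_Icc]
        rintro ⟨⟨_, h4⟩, _⟩
        omega
      calc r + 1 ≤ ((Icc 1 t).filter D).card + 1 := by omega
        _ = (insert k ((Icc 1 t).filter D)).card := (card_insert_of_notMem hnot).symm
        _ ≤ _ := card_le_card hsub

open Classical in
/-- at least `c log N` failures -/
theorem failures (b : ℕ) (hb : 2 ≤ b) (x : ℝ) (hx : FiniteExponent x) (P : ℕ) (hP : 1 ≤ P) :
    ∃ c : ℝ, 0 < c ∧ ∃ N0 : ℕ, ∀ N : ℕ, N0 ≤ N →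
      c * Real.log N ≤ (((Icc 1 N).filter (fun k : ℕ =>
        ∑ j ∈ range (P + 1), (if j = 0 then (1 : ℤ) else if j = P then -1 else 0) *
          digit b x (k + j) ≠ 0)).card : ℝ) := by
  obtain ⟨K, B, hK, hB, hgap⟩ := gap b hb x hx P hP
  have hKR : (2 : ℝ) ≤ K := by exact_mod_cast hK
  have hlK : 0 < Real.log K := Real.log_pos (by linarith)
  have hBR : (1 : ℝ) ≤ B := by exact_mod_cast hB
  have hlB : 0 ≤ Real.log B := Real.log_nonneg hBR
  have hev : ∀ᶠ N : ℕ in atTop, 2 * (Real.log B + Real.log K) ≤ Real.log N :=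
    (Real.tendsto_log_atTop.comp tendsto_natCast_atTop_atTop).eventually_ge_atTop _
  obtain ⟨N1, hN1⟩ := eventually_atTop.1 hev
  refine ⟨1 / (2 * Real.log K), by positivity, max N1 (B + 1), fun N hN => ?_⟩
  have hNB : B + 1 ≤ N := (le_max_right _ _).trans hN
  have hNR : (0 : ℝ) < N := by exact_mod_cast (by omega : 0 < N)
  set r := Nat.log K (N / B) with hr
  have hdiv : N / B ≠ 0 := by
    have := Nat.div_pos (by omega : B ≤ N) (by omega : 0 < B)
    omega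
  have h1 : K ^ r ≤ N / B := Nat.pow_log_le_self K hdiv
  have h2 : N / B < K ^ (r + 1) := Nat.lt_pow_succ_log_self (by omega) _
  have h3 : B * K ^ r ≤ N := by
    calc B * K ^ r ≤ B * (N / B) := Nat.mul_le_mul_left _ h1
      _ ≤ N := Nat.mul_div_le N B
  have h4 : N < B * K ^ (r + 1) := by
    have := (Nat.div_lt_iff_lt_mul (by omega : 0 < B)).1 h2
    rw [mul_comm] at this
    exact this
  obtain ⟨t, ht, hcard⟩ := count (fun k => digit b x k ≠ digit b x (k + P)) K B hK hgap r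
  have htN : t ≤ N := by omega
  have hfil : ((Icc 1 N).filter (fun k : ℕ =>
        ∑ j ∈ range (P + 1), (if j = 0 then (1 : ℤ) else if j = P then -1 else 0) *
          digit b x (k + j) ≠ 0)) =
      (Icc 1 N).filter (fun k : ℕ => digit b x k ≠ digit b x (k + P)) := by
    apply filter_congr
    intro k _
    rw [rel_sum P hP (digit b x) k, sub_ne_zero]
  rw [hfil]
  have hle : r ≤ ((Icc 1 N).filter (fun k : ℕ => digit b x k ≠ digit b x (k + P))).card := by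
    refine hcard.trans (card_le_card ?_)
    intro a ha
    rw [mem_filter, mem_Icc] at ha ⊢
    exact ⟨⟨ha.1.1, ha.1.2.trans htN⟩, ha.2⟩
  have hlog : Real.log N ≤ Real.log B + (r + 1) * Real.log K := by
    have h5 : (N : ℝ) ≤ B * (K : ℝ) ^ (r + 1) := by exact_mod_cast h4.le
    calc Real.log N ≤ Real.log (B * (K : ℝ) ^ (r + 1)) := Real.log_le_log hNR h5
      _ = Real.log B + Real.log ((K : ℝ) ^ (r + 1)) :=
          Real.log_mul (by linarith) (by positivity)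
      _ = Real.log B + (r + 1) * Real.log K := by
          rw [Real.log_pow]
          push_cast
          ring
  have h6 := hN1 N ((le_max_left _ _).trans hN)
  have h7 : Real.log N / 2 ≤ r * Real.log K := by nlinarith
  calc 1 / (2 * Real.log K) * Real.log N = (Real.log N / 2) / Real.log K := by field_simp
    _ ≤ (r * Real.log K) / Real.log K := div_le_div_of_nonneg_right h7 hlK.le
    _ = r := by field_simp
    _ ≤ _ := by exact_mod_cast hle

end Pool.Agent.Q135.PiM
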